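import Mathlib

set_option autoImplicit false

/-!
# Monotone curves for a union of forests

The vertices `1, 2, ...` have for each colour `i` a parent `P i w < w` (the value `0` means that
there is no parent). The edge of colour `i` from `P i w` to `w` is drawn as a piecewise linear
curve, monotone in the first coordinate, with abscissas from `L * P i w` to `L * w`.
-/

namespace Pool.Agent.W5h12.QP

/-- positions of the vertices in the order of a forest: each vertex is inserted just after its
parent -/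
noncomputable def rk (P : ℕ → ℕ) (w : ℕ) : ℝ :=
  if _h : P w < w then rk P (P w) + (1 / 3 : ℝ) ^ w else 0
termination_by w

theorem rk_zero (P : ℕ → ℕ) : rk P 0 = 0 := by
  rw [rk, dif_neg (Nat.not_lt_zero _)]

theorem rk_pos (P : ℕ → ℕ) {w : ℕ} (h : P w < w) : rk P w = rk P (P w) + (1 / 3 : ℝ) ^ w := by
  rw [rk, dif_pos h]

section Rank

variable {P : ℕ → ℕ} (hP : ∀ w, 1 ≤ w → P w < w)
include hP

theorem rk_nonneg (w : ℕ) : 0 ≤ rk P w := by
  induction w using Nat.strong_induction_on with
  | _ w ih =>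
    rcases Nat.eq_zero_or_pos w with rfl | hw
    · rw [rk_zero]
    · rw [rk_pos P (hP w hw)]
      have := ih _ (hP w hw)
      positivity

theorem rk_le (w : ℕ) : rk P w ≤ (1 - (1 / 3 : ℝ) ^ w) / 2 := by
  induction w using Nat.strong_induction_on with
  | _ w ih =>
    rcases Nat.eq_zero_or_pos w with rfl | hw
    · rw [rk_zero]
      simp
    · rw [rk_pos P (hP w hw)]
      have h1 := ih _ (hP w hw)
      have h2 : (1 / 3 : ℝ) ^ (w - 1) ≤ (1 / 3 : ℝ) ^ (P w) :=
        pow_le_pow_of_le_one (by norm_num) (by norm_num) (by have := hP w hw; omega)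
      have h3 : (1 / 3 : ℝ) ^ w = (1 / 3 : ℝ) ^ (w - 1) / 3 := by
        conv_lhs => rw [show w = w - 1 + 1 by omega]
        rw [pow_succ]
        ring
      linarith

theorem rk_gap (m : ℕ) : ∀ u ≤ m, ∀ w ≤ m, u ≠ w → (1 / 3 : ℝ) ^ m ≤ |rk P u - rk P w| := by
  induction m with
  | zero => intro u hu w hw h; omega
  | succ m ih =>
    have hpos : (0 : ℝ) < (1 / 3) ^ m := by positivity
    have hs : (1 / 3 : ℝ) ^ (m + 1) = (1 / 3) ^ m / 3 := by rw [pow_succ]; ring
    have key : ∀ u ≤ m, (1 / 3 : ℝ) ^ (m + 1) ≤ |rk P u - rk P (m + 1)| := by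
      intro u hu
      have hc := hP (m + 1) (by omega)
      rw [rk_pos P hc, hs]
      by_cases huc : u = P (m + 1)
      · rw [← huc, abs_sub_comm, add_sub_cancel_left, abs_of_pos (by positivity)]
      · have h1 := ih u hu (P (m + 1)) (by omega) huc
        rcases le_abs.1 h1 with h2 | h2
        · refine le_trans ?_ (le_abs_self _)
          linarith
        · refine le_trans ?_ (neg_le_abs _)
          linarith
    intro u hu w hw h
    rcases Nat.lt_or_ge u (m + 1) with hu' | hu' <;> rcases Nat.lt_or_ge w (m + 1) with hw' | hw'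
    · have := ih u (by omega) w (by omega) h
      rw [hs]
      linarith
    · rw [show w = m + 1 by omega]
      exact key u (by omega)
    · rw [show u = m + 1 by omega, abs_sub_comm]
      exact key w (by omega)
    · omega

theorem rk_inj {u w : ℕ} (h : rk P u = rk P w) : u = w := by
  by_contra hne
  have := rk_gap hP (max u w) u (le_max_left _ _) w (le_max_right _ _) hne
  rw [h, sub_self, abs_zero] at this
  have h2 : (0 : ℝ) < (1 / 3) ^ (max u w) := by positivity
  linarith

/-- `w` is inserted just after its parent -/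
theorem rk_insert {u w : ℕ} (hw : 1 ≤ w) (hu : u < w) (hne : u ≠ P w) :
    rk P u < rk P w ↔ rk P u < rk P (P w) := by
  have hc := hP w hw
  have h1 := rk_gap hP (w - 1) u (by omega) (P w) (by omega) hne
  have h3 : (1 / 3 : ℝ) ^ w = (1 / 3 : ℝ) ^ (w - 1) / 3 := by
    conv_lhs => rw [show w = w - 1 + 1 by omega]
    rw [pow_succ]
    ring
  have hpos : (0 : ℝ) < (1 / 3) ^ (w - 1) := by positivity
  rw [rk_pos P hc, h3]
  rcases le_abs.1 h1 with h2 | h2
  · constructor
    · intro h; linarith
    · intro h; linarith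
  · constructor
    · intro h; linarith
    · intro h; linarith

theorem rk_parent {w : ℕ} (hw : 1 ≤ w) : rk P (P w) < rk P w := by
  rw [rk_pos P (hP w hw)]
  have : (0 : ℝ) < (1 / 3) ^ w := by positivity
  linarith

/-- a vertex whose parent comes before `P w` is not between `P w` and `w` -/
theorem rk_between {w v : ℕ} (hw : 1 ≤ w) (h1 : P v < P w) (h2 : P w < v)
    (h3 : rk P (P w) < rk P v) (h4 : rk P v < rk P w) : False := by
  have hc := hP w hw
  have hvw : v ≠ w := by
    rintro rfl
    exact lt_irrefl _ h4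
  rcases Nat.lt_or_ge v w with h | h
  · have := (rk_insert hP hw h (by omega)).1 h4
    linarith
  · have hv : 1 ≤ v := by omega
    have hw' : w < v := by omega
    -- compare `v` with `P w` and with `w`
    have a1 : rk P (P w) < rk P (P v) := (rk_insert hP hv (by omega) (by omega)).1 h3
    have a2 : ¬ rk P w < rk P (P v) := by
      intro h5
      have := (rk_insert hP hv hw' (by omega)).2 h5
      linarith
    have a3 : rk P (P v) ≠ rk P w := fun h => by
      have := rk_inj hP h
      omega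
    have a4 : rk P (P v) < rk P w := lt_of_le_of_ne (not_lt.1 a2) a3
    have a5 := (rk_insert hP hw (by omega) (by omega)).1 a4
    linarith

theorem rk_sub_lt (u w : ℕ) : -1 < rk P u - rk P w ∧ rk P u - rk P w < 1 := by
  have h1 := rk_nonneg hP u
  have h2 := rk_nonneg hP w
  have h3 := rk_le hP u
  have h4 := rk_le hP w
  have h5 : (0 : ℝ) < (1 / 3) ^ u := by positivity
  have h6 : (0 : ℝ) < (1 / 3) ^ w := by positivity
  constructor <;> linarith

end Rank

/-- the bands of heights -/
noncomputable def ph (i : ℕ) (z : ℝ) : ℝ := if 0 ≤ z then z + (i + 1) else z - (i + 1)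

theorem ph_mono (i : ℕ) : StrictMono (ph i) := by
  intro a b hab
  unfold ph
  have : (0 : ℝ) ≤ i := by positivity
  split_ifs <;> linarith

theorem ph_pos {i : ℕ} {z : ℝ} (h : 0 ≤ z) : 0 < ph i z := by
  unfold ph
  rw [if_pos h]
  positivity

theorem ph_neg {i : ℕ} {z : ℝ} (h : z < 0) : ph i z < 0 := by
  unfold ph
  rw [if_neg (not_le.2 h)]
  have : (0 : ℝ) ≤ i := by positivity
  linarith

theorem ph_ne_zero (i : ℕ) (z : ℝ) : ph i z ≠ 0 := by
  rcases le_or_gt 0 z with h | h
  · exact (ph_pos h).ne'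
  · exact (ph_neg h).ne

theorem ph_abs (i : ℕ) {z : ℝ} (h1 : -1 < z) (h2 : z < 1) :
    (i : ℝ) + 1 ≤ |ph i z| ∧ |ph i z| < (i : ℝ) + 2 := by
  have : (0 : ℝ) ≤ i := by positivity
  unfold ph
  split_ifs with h
  · rw [abs_of_nonneg (by linarith)]
    constructor <;> linarith
  · rw [abs_of_neg (by linarith)]
    constructor <;> linarith

theorem ph_ne {i j : ℕ} (hij : i ≠ j) {z z' : ℝ} (h1 : -1 < z) (h2 : z < 1) (h1' : -1 < z')
    (h2' : z' < 1) : ph i z ≠ ph j z' := by
  intro he
  have a := ph_abs i h1 h2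
  have b := ph_abs j h1' h2'
  rw [he] at a
  rcases Nat.lt_or_gt_of_ne hij with h | h
  · have : (i : ℝ) + 1 ≤ j := by exact_mod_cast h
    linarith
  · have : (j : ℝ) + 1 ≤ i := by exact_mod_cast h
    linarith

/-- the reference vertex of colour `i` at time `x` -/
def refv (L i x : ℕ) : ℕ := x / L + (if i + 1 < x % L then 1 else 0)

theorem refv_succ {L i x : ℕ} (hL : i + 2 < L) (h : x % L ≠ i + 1) :
    refv L i (x + 1) = refv L i x := by
  unfold refv
  have hL0 : 0 < L := by omega
  have h1 := Nat.div_add_mod x L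
  have h2 := Nat.mod_lt x hL0
  rcases Nat.lt_or_ge (x % L + 1) L with h3 | h3
  · have hx : x + 1 = L * (x / L) + (x % L + 1) := by omega
    have h4 : (x + 1) / L = x / L := by
      rw [hx, Nat.mul_add_div hL0, Nat.div_eq_of_lt h3, add_zero]
    have h5 : (x + 1) % L = x % L + 1 := by
      rw [hx, Nat.mul_add_mod, Nat.mod_eq_of_lt h3]
    rw [h4, h5]
    split_ifs <;> omega
  · have hx : x + 1 = L * (x / L + 1) := by rw [mul_add]; omega
    have h4 : (x + 1) / L = x / L + 1 := by
      conv_lhs => rw [hx]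
      rw [Nat.mul_div_cancel_left _ hL0]
    have h5 : (x + 1) % L = 0 := by
      rw [hx, Nat.mul_mod_right]
    rw [h4, h5]
    split_ifs <;> omega

/-- the height at the integer time `x` of the curve of colour `i` ending at `w` -/
noncomputable def hgt (L : ℕ) (P : ℕ → ℕ → ℕ) (i w x : ℕ) : ℝ :=
  if x = L * P i w ∨ x = L * w then 0 else ph i (rk (P i) w - rk (P i) (refv L i x))

section Heights

variable {L : ℕ} {P : ℕ → ℕ → ℕ} (hP : ∀ i w, 1 ≤ w → P i w < w)
include hP

omit hP in
theorem hgt_in {i w x : ℕ} (h1 : L * P i w < x) (h2 : x < L * w) :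
    hgt L P i w x = ph i (rk (P i) w - rk (P i) (refv L i x)) := by
  unfold hgt
  rw [if_neg (by omega)]

theorem hgt_ne {i j w w' x : ℕ} (h1 : L * P i w < x) (h2 : x < L * w) (h1' : L * P j w' < x)
    (h2' : x < L * w') (hne : ¬ (P i w = P j w' ∧ w = w')) : hgt L P i w x ≠ hgt L P j w' x := by
  rw [hgt_in h1 h2, hgt_in h1' h2']
  by_cases hij : i = j
  · subst hij
    have hw : w ≠ w' := by
      rintro rfl
      exact hne ⟨rfl, rfl⟩
    intro he
    have := (ph_mono i).injective he
    exact hw (rk_inj (hP i) (by linarith))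
  · have a := rk_sub_lt (hP i) w (refv L i x)
    have b := rk_sub_lt (hP j) w' (refv L j x)
    exact ph_ne hij a.1 a.2 b.1 b.2

omit hP in
/-- at a vertex in between, the curve passes above or below -/
theorem hgt_vertex {i w u : ℕ} (hL : 0 < L) (h1 : P i w < u) (h2 : u < w) :
    hgt L P i w (L * u) ≠ 0 := by
  rw [hgt_in (Nat.mul_lt_mul_of_pos_left h1 hL) (Nat.mul_lt_mul_of_pos_left h2 hL)]
  exact ph_ne_zero _ _

omit hP in
theorem refv_mul (hL : 0 < L) (i u : ℕ) : refv L i (L * u) = u := by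
  unfold refv
  rw [Nat.mul_div_cancel_left _ hL, Nat.mul_mod_right, if_neg (by omega)]
  rfl

/-- curves of the same colour do not cross -/
theorem hgt_le {i w w' x : ℕ} (hL : 0 < L) (hw : 1 ≤ w) (hw' : 1 ≤ w')
    (hlt : rk (P i) w < rk (P i) w')
    (h1 : L * P i w ≤ x) (h2 : x ≤ L * w) (h1' : L * P i w' ≤ x) (h2' : x ≤ L * w') :
    hgt L P i w x ≤ hgt L P i w' x := by
  have hc := hP i w hw
  have hc' := hP i w' hw'
  have hww : w ≠ w' := by
    rintro rfl
    exact lt_irrefl _ hlt
  -- `x` is an endpoint of the first curve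
  by_cases e1 : x = L * P i w
  · have hz : hgt L P i w x = 0 := by unfold hgt; rw [if_pos (Or.inl e1)]
    rw [hz]
    by_cases e2 : x = L * P i w' ∨ x = L * w'
    · unfold hgt; rw [if_pos e2]
    · unfold hgt
      rw [if_neg e2, e1, refv_mul hL]
      refine (ph_pos ?_).le
      have := rk_parent (hP i) hw
      linarith
  by_cases e2 : x = L * w
  · have hz : hgt L P i w x = 0 := by unfold hgt; rw [if_pos (Or.inr e2)]
    rw [hz]
    by_cases e3 : x = L * P i w' ∨ x = L * w'
    · unfold hgt; rw [if_pos e3]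
    · unfold hgt
      rw [if_neg e3, e2, refv_mul hL]
      exact (ph_pos (by linarith)).le
  have hin : hgt L P i w x = ph i (rk (P i) w - rk (P i) (refv L i x)) :=
    hgt_in (lt_of_le_of_ne h1 (Ne.symm e1)) (lt_of_le_of_ne h2 e2)
  by_cases e3 : x = L * P i w'
  · have hz : hgt L P i w' x = 0 := by unfold hgt; rw [if_pos (Or.inl e3)]
    rw [hz, hin, e3, refv_mul hL]
    refine (ph_neg ?_).le
    have k1 : P i w < P i w' := by
      have : L * P i w < L * P i w' := by omega
      exact Nat.lt_of_mul_lt_mul_left this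
    have k2 : P i w' < w := by
      have : L * P i w' < L * w := by omega
      exact Nat.lt_of_mul_lt_mul_left this
    by_contra hcon
    push Not at hcon
    have k3 : rk (P i) (P i w') ≠ rk (P i) w := by
      intro h
      have := rk_inj (hP i) h
      omega
    exact rk_between (hP i) hw' k1 k2 (lt_of_le_of_ne (by linarith) k3) hlt
  by_cases e4 : x = L * w'
  · have hz : hgt L P i w' x = 0 := by unfold hgt; rw [if_pos (Or.inr e4)]
    rw [hz, hin, e4, refv_mul hL]
    exact (ph_neg (by linarith)).le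
  · have hin' : hgt L P i w' x = ph i (rk (P i) w' - rk (P i) (refv L i x)) :=
      hgt_in (lt_of_le_of_ne h1' (Ne.symm e3)) (lt_of_le_of_ne h2' e4)
    rw [hin, hin']
    exact ((ph_mono i) (by linarith)).le

/-- the curve moves in the time slot starting at `x` -/
def Mov (L : ℕ) (P : ℕ → ℕ → ℕ) (i w x : ℕ) : Prop :=
  x = L * P i w ∨ x + 1 = L * w ∨ x % L = i + 1

omit hP in
theorem hgt_static {i w x : ℕ} (hi : i + 2 < L) (h1 : L * P i w ≤ x) (h2 : x + 1 ≤ L * w)
    (hs : ¬ Mov L P i w x) : hgt L P i w (x + 1) = hgt L P i w x := by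
  unfold Mov at hs
  push Not at hs
  obtain ⟨s1, s2, s3⟩ := hs
  rw [hgt_in (by omega) (by omega), hgt_in (by omega) (by omega), refv_succ hi s3]

end Heights

theorem not_dvd_both {L x : ℕ} (hL : 2 ≤ L) (h : L ∣ x) : ¬ L ∣ x + 1 := by
  intro h'
  have := (Nat.dvd_add_right h).1 h'
  rw [Nat.dvd_one] at this
  omega

/-- two different curves meet at most once in a time slot -/
theorem slot_ne {L : ℕ} {P : ℕ → ℕ → ℕ} (hP : ∀ i w, 1 ≤ w → P i w < w) (hL : 2 ≤ L)
    {i j w w' x : ℕ} (h1 : L * P i w ≤ x) (h2 : x + 1 ≤ L * w)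
    (h1' : L * P j w' ≤ x) (h2' : x + 1 ≤ L * w') (hne : ¬ (P i w = P j w' ∧ w = w')) :
    hgt L P i w x ≠ hgt L P j w' x ∨ hgt L P i w (x + 1) ≠ hgt L P j w' (x + 1) := by
  by_cases hd : L ∣ x
  · right
    have hd' := not_dvd_both hL hd
    have a1 : x + 1 ≠ L * w := fun h => hd' ⟨w, h⟩
    have a2 : x + 1 ≠ L * w' := fun h => hd' ⟨w', h⟩
    exact hgt_ne hP (by omega) (by omega) (by omega) (by omega) hne
  · left
    have a1 : x ≠ L * P i w := fun h => hd ⟨_, h⟩
    have a2 : x ≠ L * P j w' := fun h => hd ⟨_, h⟩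
    exact hgt_ne hP (by omega) (by omega) (by omega) (by omega) hne

/-- two curves of the same colour do not meet inside a time slot -/
theorem slot_same {L : ℕ} {P : ℕ → ℕ → ℕ} (hP : ∀ i w, 1 ≤ w → P i w < w) (hL : 2 ≤ L)
    {i w w' x : ℕ} (hw : 1 ≤ w) (hw' : 1 ≤ w') (h1 : L * P i w ≤ x) (h2 : x + 1 ≤ L * w)
    (h1' : L * P i w' ≤ x) (h2' : x + 1 ≤ L * w') (hne : w ≠ w') {t : ℝ} (ht0 : 0 < t)
    (ht1 : t < 1) : (1 - t) * hgt L P i w x + t * hgt L P i w (x + 1) ≠
      (1 - t) * hgt L P i w' x + t * hgt L P i w' (x + 1) := by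
  have key : ∀ {w w' : ℕ}, 1 ≤ w → 1 ≤ w' → L * P i w ≤ x → x + 1 ≤ L * w →
      L * P i w' ≤ x → x + 1 ≤ L * w' → rk (P i) w < rk (P i) w' →
      (1 - t) * hgt L P i w x + t * hgt L P i w (x + 1) <
      (1 - t) * hgt L P i w' x + t * hgt L P i w' (x + 1) := by
    intro w w' hw hw' h1 h2 h1' h2' hlt
    have b1 := hgt_le hP (by omega) hw hw' hlt h1 (by omega) h1' (by omega)
    have b2 := hgt_le (x := x + 1) hP (by omega) hw hw' hlt (by omega) h2 (by omega) h2'
    have hww : w ≠ w' := by
      rintro rfl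
      exact lt_irrefl _ hlt
    rcases slot_ne hP hL h1 h2 h1' h2' (fun h => hww h.2) with h | h
    · have b3 := lt_of_le_of_ne b1 h
      have c1 := mul_lt_mul_of_pos_left b3 (show 0 < 1 - t by linarith)
      have c2 := mul_le_mul_of_nonneg_left b2 ht0.le
      linarith
    · have b3 := lt_of_le_of_ne b2 h
      have c1 := mul_le_mul_of_nonneg_left b1 (show 0 ≤ 1 - t by linarith)
      have c2 := mul_lt_mul_of_pos_left b3 ht0
      linarith
  have hrk : rk (P i) w ≠ rk (P i) w' := fun h => hne (rk_inj (hP i) h)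
  rcases lt_or_gt_of_ne hrk with h | h
  · exact (key hw hw' h1 h2 h1' h2' h).ne
  · exact (key hw' hw h1' h2' h1 h2 h).ne'

/-- two moving curves do not meet inside a time slot -/
theorem slot_mov {L : ℕ} {P : ℕ → ℕ → ℕ} (hP : ∀ i w, 1 ≤ w → P i w < w) (hL : 2 ≤ L)
    {i j w w' x : ℕ} (hi : i + 2 < L) (hj : j + 2 < L) (hw : 1 ≤ w) (hw' : 1 ≤ w')
    (h1 : L * P i w ≤ x) (h2 : x + 1 ≤ L * w)
    (h1' : L * P j w' ≤ x) (h2' : x + 1 ≤ L * w') (hne : ¬ (P i w = P j w' ∧ w = w'))
    (hm : Mov L P i w x) (hm' : Mov L P j w' x) {t : ℝ} (ht0 : 0 < t)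
    (ht1 : t < 1) : (1 - t) * hgt L P i w x + t * hgt L P i w (x + 1) ≠
      (1 - t) * hgt L P j w' x + t * hgt L P j w' (x + 1) := by
  have m0 : ∀ c, x = L * c → x % L = 0 := fun c h => by rw [h, Nat.mul_mod_right]
  have m1 : ∀ c, x + 1 = L * c → x % L = L - 1 := by
    intro c h
    have hc : 0 < c := by
      rcases Nat.eq_zero_or_pos c with rfl | hc
      · omega
      · exact hc
    obtain ⟨c', rfl⟩ : ∃ c', c = c' + 1 := ⟨c - 1, by omega⟩
    have : x = L * c' + (L - 1) := by
      rw [mul_add] at h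
      omega
    rw [this, Nat.mul_add_mod]
    exact Nat.mod_eq_of_lt (by omega)
  rcases hm with hm | hm | hm
  · have k := m0 _ hm
    rcases hm' with hm' | hm' | hm'
    · -- both curves start
      have z1 : hgt L P i w x = 0 := by unfold hgt; rw [if_pos (Or.inl hm)]
      have z2 : hgt L P j w' x = 0 := by unfold hgt; rw [if_pos (Or.inl hm')]
      rcases slot_ne hP hL h1 h2 h1' h2' hne with h | h
      · exact absurd (z1.trans z2.symm) h
      · rw [z1, z2]
        intro he
        exact h (mul_left_cancel₀ ht0.ne' (by linarith))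
    · have := m1 _ hm'; omega
    · omega
  · have k := m1 _ hm
    rcases hm' with hm' | hm' | hm'
    · have := m0 _ hm'; omega
    · have z1 : hgt L P i w (x + 1) = 0 := by unfold hgt; rw [if_pos (Or.inr hm)]
      have z2 : hgt L P j w' (x + 1) = 0 := by unfold hgt; rw [if_pos (Or.inr hm')]
      rcases slot_ne hP hL h1 h2 h1' h2' hne with h | h
      · rw [z1, z2]
        intro he
        exact h (mul_left_cancel₀ (show (1 - t) ≠ 0 by linarith) (by linarith))
      · exact absurd (z1.trans z2.symm) h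
    · omega
  · rcases hm' with hm' | hm' | hm'
    · have := m0 _ hm'; omega
    · have := m1 _ hm'; omega
    · have hij : i = j := by omega
      subst hij
      have hww : w ≠ w' := by
        rintro rfl
        exact hne ⟨rfl, rfl⟩
      exact slot_same hP hL hw hw' h1 h2 h1' h2' hww ht0 ht1

/-- two static curves do not meet inside a time slot -/
theorem slot_static {L : ℕ} {P : ℕ → ℕ → ℕ} (hP : ∀ i w, 1 ≤ w → P i w < w) (hL : 2 ≤ L)
    {i j w w' x : ℕ} (hi : i + 2 < L) (hj : j + 2 < L)
    (h1 : L * P i w ≤ x) (h2 : x + 1 ≤ L * w)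
    (h1' : L * P j w' ≤ x) (h2' : x + 1 ≤ L * w') (hne : ¬ (P i w = P j w' ∧ w = w'))
    (hm : ¬ Mov L P i w x) (hm' : ¬ Mov L P j w' x) {t : ℝ} :
    (1 - t) * hgt L P i w x + t * hgt L P i w (x + 1) ≠
      (1 - t) * hgt L P j w' x + t * hgt L P j w' (x + 1) := by
  have s1 := hgt_static hi h1 h2 hm
  have s2 := hgt_static hj h1' h2' hm'
  have h3 : hgt L P i w x ≠ hgt L P j w' x := by
    rcases slot_ne hP hL h1 h2 h1' h2' hne with h | h
    · exact h
    · rwa [s1, s2] at h
  rw [s1, s2]
  intro he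
  exact h3 (by linarith)

/-- piecewise linear interpolation -/
noncomputable def lin (H : ℕ → ℝ) (N : ℕ) (x : ℝ) : ℝ :=
  ∑ k ∈ Finset.range (N + 1), H k * max 0 (1 - |x - k|)

theorem lin_cont (H : ℕ → ℝ) (N : ℕ) : Continuous (lin H N) := by
  unfold lin
  fun_prop

theorem lin_eq (H : ℕ → ℝ) {N k : ℕ} (hk : k + 1 ≤ N) {t : ℝ} (ht0 : 0 ≤ t) (ht1 : t ≤ 1) :
    lin H N (k + t) = (1 - t) * H k + t * H (k + 1) := by
  unfold lin
  rw [Finset.sum_eq_add k (k + 1) (by omega) ?_ ?_ ?_]
  · have e1 : |(k : ℝ) + t - k| = t := by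
      rw [add_sub_cancel_left, abs_of_nonneg ht0]
    have e2 : |(k : ℝ) + t - ((k + 1 : ℕ) : ℝ)| = 1 - t := by
      push_cast
      rw [abs_of_nonpos (by linarith)]
      ring
    rw [e1, e2, max_eq_right (by linarith), max_eq_right (by linarith)]
    ring
  · intro c _ hc
    have : 1 ≤ |(k : ℝ) + t - c| := by
      rcases Nat.lt_or_ge c k with h | h
      · have : (c : ℝ) + 1 ≤ k := by exact_mod_cast h
        refine le_trans ?_ (le_abs_self _)
        linarith
      · have h' : k + 2 ≤ c := by omega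
        have : (k : ℝ) + 2 ≤ c := by exact_mod_cast h'
        refine le_trans ?_ (neg_le_abs _)
        linarith
    rw [max_eq_left (by linarith), mul_zero]
  · intro h
    exact absurd (Finset.mem_range.2 (by omega)) h
  · intro h
    exact absurd (Finset.mem_range.2 (by omega)) h

theorem lin_nat (H : ℕ → ℝ) {N k : ℕ} (hN : 1 ≤ N) (hk : k ≤ N) : lin H N k = H k := by
  rcases Nat.lt_or_ge k N with h | h
  · have := lin_eq H (N := N) (k := k) (by omega) (t := 0) le_rfl zero_le_one
    simpa using this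
  · have := lin_eq H (N := N) (k := k - 1) (by omega) (t := 1) zero_le_one le_rfl
    have e : ((k - 1 : ℕ) : ℝ) + 1 = k := by
      rw [Nat.cast_sub (by omega)]
      push_cast
      ring
    rw [e, show k - 1 + 1 = k by omega] at this
    simpa using this

end Pool.Agent.W5h12.QP
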