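import Mathlib

set_option autoImplicit false

/-!
# Topological graphs, `k`-matching-planar graphs and `m`-quasi-planar graphs
-/

namespace Pool.Agent.W5h12.QP

/-- A topological graph with underlying abstract graph `G`. The curve of the edge `e` is
`crv e` restricted to `[0, 1]`. -/
structure TopGraph {V : Type} (G : SimpleGraph V) where
  /-- the point of a vertex -/
  pt : V → ℝ × ℝ
  /-- the curve of an edge -/
  crv : Sym2 V → ℝ → ℝ × ℝ
  /-- vertices are distinct points -/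
  pt_inj : Function.Injective pt
  /-- edges are curves -/
  cont : ∀ e ∈ G.edgeSet, ContinuousOn (crv e) (Set.Icc 0 1)
  /-- the curves are simple -/
  inj : ∀ e ∈ G.edgeSet, Set.InjOn (crv e) (Set.Icc 0 1)
  /-- the curve of an edge joins its two endpoints -/
  ends : ∀ e ∈ G.edgeSet, ∃ u v, e = s(u, v) ∧ crv e 0 = pt u ∧ crv e 1 = pt v
  /-- the curve of an edge passes through no other vertex -/
  avoid : ∀ e ∈ G.edgeSet, ∀ w, w ∉ e → ∀ t ∈ Set.Icc (0 : ℝ) 1, crv e t ≠ pt w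
  /-- two edges meet in finitely many points -/
  finite : ∀ e ∈ G.edgeSet, ∀ f ∈ G.edgeSet, e ≠ f →
    (crv e '' Set.Icc 0 1 ∩ crv f '' Set.Icc 0 1).Finite
  /-- no three edges share an interior point -/
  triple : ∀ e ∈ G.edgeSet, ∀ f ∈ G.edgeSet, ∀ g ∈ G.edgeSet, e ≠ f → e ≠ g → f ≠ g →
    crv e '' Set.Ioo 0 1 ∩ crv f '' Set.Ioo 0 1 ∩ crv g '' Set.Ioo 0 1 = ∅

/-- Two edges cross: they are distinct and meet in a point interior to both. -/
def TopGraph.Cross {V : Type} {G : SimpleGraph V} (D : TopGraph G) (e f : Sym2 V) : Prop :=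
  e ≠ f ∧ (D.crv e '' Set.Ioo 0 1 ∩ D.crv f '' Set.Ioo 0 1).Nonempty

/-- No edge is crossed by more than `k` pairwise vertex-disjoint edges. -/
def TopGraph.MatchingPlanar {V : Type} {G : SimpleGraph V} (D : TopGraph G) (k : ℕ) : Prop :=
  ∀ e ∈ G.edgeSet, ∀ M : Finset (Sym2 V), (∀ f ∈ M, f ∈ G.edgeSet ∧ D.Cross e f) →
    (∀ f ∈ M, ∀ g ∈ M, f ≠ g → ∀ v, v ∈ f → v ∉ g) → M.card ≤ k

/-- There are no `m` edges which pairwise cross. -/
def TopGraph.QuasiPlanar {V : Type} {G : SimpleGraph V} (D : TopGraph G) (m : ℕ) : Prop :=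
  ¬ ∃ M : Finset (Sym2 V), M.card = m ∧ (∀ f ∈ M, f ∈ G.edgeSet) ∧
    ∀ f ∈ M, ∀ g ∈ M, f ≠ g → D.Cross f g

/-- `G` is `k`-matching-planar: it can be drawn as a topological graph with this property. -/
def IsMatchingPlanar {V : Type} (G : SimpleGraph V) (k : ℕ) : Prop :=
  ∃ D : TopGraph G, D.MatchingPlanar k

/-- `G` is `m`-quasi-planar: it can be drawn as a topological graph with this property. -/
def IsQuasiPlanar {V : Type} (G : SimpleGraph V) (m : ℕ) : Prop :=
  ∃ D : TopGraph G, D.QuasiPlanar m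

end Pool.Agent.W5h12.QP
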