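import Pool.Agent.W5h12.QP.Defs
import Pool.Agent.W5h12.QP.Curve

set_option autoImplicit false

/-!
# Graphs with few neighbours before each vertex are quasi-planar
-/

namespace Pool.Agent.W5h12.QP

open Set

/-- the data of the drawing of a graph: colours, lower and upper ends of the edges -/
structure Code {V : Type} (G : SimpleGraph V) (d : ℕ) where
  idx : V → ℕ
  P : ℕ → ℕ → ℕ
  c : Sym2 V → ℕ
  w : Sym2 V → ℕ
  i : Sym2 V → ℕ
  M : ℕ
  idx_inj : Function.Injective idx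
  idx_le : ∀ v, idx v ≤ M
  hP : ∀ i w, 1 ≤ w → P i w < w
  spec : ∀ e ∈ G.edgeSet, ∃ u v, e = s(u, v) ∧ idx u = c e ∧ idx v = w e ∧ c e < w e
  par : ∀ e ∈ G.edgeSet, P (i e) (w e) = c e
  col : ∀ e ∈ G.edgeSet, i e < d

theorem exists_code {V : Type} [Fintype V] (G : SimpleGraph V) (d : ℕ) (r : V → ℕ)
    (hr : Function.Injective r)
    (hS : ∀ v, ∃ S : Finset V, (∀ u, G.Adj v u → r u < r v → u ∈ S) ∧ S.card ≤ d) :
    Nonempty (Code G d) := by
  classical
  choose S hS1 hS2 using hS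
  let col : V → V → ℕ := fun v u => if h : u ∈ S v then ((S v).equivFin ⟨u, h⟩ : ℕ) else 0
  have hcol : ∀ v u, u ∈ S v → col v u < d := by
    intro v u hu
    simp only [col]
    rw [dif_pos hu]
    exact lt_of_lt_of_le (Fin.is_lt _) (hS2 v)
  have hcoli : ∀ v u u', u ∈ S v → u' ∈ S v → col v u = col v u' → u = u' := by
    intro v u u' hu hu' he
    simp only [col] at he
    rw [dif_pos hu, dif_pos hu'] at he
    have := (S v).equivFin.injective (Fin.ext he)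
    exact congrArg Subtype.val this
  let Q : ℕ → ℕ → V × V → Prop := fun i w p =>
    r p.1 + 1 = w ∧ G.Adj p.1 p.2 ∧ r p.2 < r p.1 ∧ col p.1 p.2 = i
  let P : ℕ → ℕ → ℕ := fun i w => if h : ∃ p, Q i w p then r (Classical.choose h).2 + 1 else 0
  have hP : ∀ i w, 1 ≤ w → P i w < w := by
    intro i w hw
    simp only [P]
    split_ifs with h
    · have := Classical.choose_spec h
      have h1 := this.1
      have h2 := this.2.2.1
      omega
    · omega
  have hPs : ∀ v u, G.Adj v u → r u < r v → P (col v u) (r v + 1) = r u + 1 := by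
    intro v u hadj hlt
    have h : ∃ p, Q (col v u) (r v + 1) p := ⟨(v, u), rfl, hadj, hlt, rfl⟩
    simp only [P]
    rw [dif_pos h]
    obtain ⟨h1, h2, h3, h4⟩ := Classical.choose_spec h
    have e1 : (Classical.choose h).1 = v := hr (by omega)
    rw [e1] at h2 h3 h4
    have e2 : (Classical.choose h).2 = u :=
      hcoli v _ _ (hS1 v _ h2 h3) (hS1 v u hadj hlt) h4
    rw [e2]
  have hq : ∀ e : Sym2 V, ∃ q : ℕ × ℕ × ℕ, e ∈ G.edgeSet → ∃ u v, e = s(u, v) ∧ r u < r v ∧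
      G.Adj v u ∧ q = (r u + 1, r v + 1, col v u) := by
    intro e
    by_cases he : e ∈ G.edgeSet
    · induction e using Sym2.ind with
      | _ a b =>
        rw [SimpleGraph.mem_edgeSet] at he
        rcases Nat.lt_trichotomy (r a) (r b) with h | h | h
        · exact ⟨(r a + 1, r b + 1, col b a), fun _ => ⟨a, b, rfl, h, he.symm, rfl⟩⟩
        · exact absurd (hr h) he.ne
        · exact ⟨(r b + 1, r a + 1, col a b), fun _ => ⟨b, a, Sym2.eq_swap, h, he, rfl⟩⟩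
    · exact ⟨(0, 0, 0), fun h => absurd h he⟩
  choose q hq using hq
  refine ⟨⟨fun v => r v + 1, P, fun e => (q e).1, fun e => (q e).2.1, fun e => (q e).2.2,
    Finset.univ.sup (fun v => r v + 1), ?_, ?_, hP, ?_, ?_, ?_⟩⟩
  · intro a b h
    exact hr (by simpa using h)
  · intro v
    exact Finset.le_sup (f := fun v => r v + 1) (Finset.mem_univ v)
  · intro e he
    obtain ⟨u, v, h1, h2, h3, h4⟩ := hq e he
    exact ⟨u, v, h1, by rw [h4], by rw [h4], by rw [h4]; simp only; omega⟩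
  · intro e he
    obtain ⟨u, v, h1, h2, h3, h4⟩ := hq e he
    rw [h4]
    exact hPs v u h3 h2
  · intro e he
    obtain ⟨u, v, h1, h2, h3, h4⟩ := hq e he
    rw [h4]
    exact hcol v u (hS1 v u h3 h2)

namespace Code

variable {V : Type} {G : SimpleGraph V} {d : ℕ} (C : Code G d)

/-- the width of a vertex interval -/
def L (_ : Code G d) : ℕ := d + 2

/-- the number of time slots -/
def N : ℕ := C.L * (C.M + 1)

/-- heights of the curve of an edge at integer times -/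
noncomputable def H (e : Sym2 V) : ℕ → ℝ := hgt C.L C.P (C.i e) (C.w e)

/-- height of the curve of an edge -/
noncomputable def Y (e : Sym2 V) (X : ℝ) : ℝ := lin (C.H e) C.N X

/-- abscissa -/
noncomputable def X (e : Sym2 V) (t : ℝ) : ℝ :=
  (C.L * C.c e : ℕ) + t * (((C.L * C.w e : ℕ) : ℝ) - (C.L * C.c e : ℕ))

/-- the curve of an edge -/
noncomputable def crv (e : Sym2 V) (t : ℝ) : ℝ × ℝ := (C.X e t, C.Y e (C.X e t))

/-- the point of a vertex -/
def pt (v : V) : ℝ × ℝ := (((C.L * C.idx v : ℕ) : ℝ), 0)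

theorem L_pos : 0 < C.L := by unfold L; omega

theorem two_le : 2 ≤ C.L := by unfold L; omega

theorem N_pos : 1 ≤ C.N := by
  unfold N
  have := C.L_pos
  exact Nat.mul_pos this (Nat.succ_pos _)

theorem lt_w {e : Sym2 V} (he : e ∈ G.edgeSet) : C.L * C.c e < C.L * C.w e := by
  obtain ⟨u, v, h1, h2, h3, h4⟩ := C.spec e he
  exact Nat.mul_lt_mul_of_pos_left h4 C.L_pos

theorem w_pos {e : Sym2 V} (he : e ∈ G.edgeSet) : 1 ≤ C.w e := by
  obtain ⟨u, v, h1, h2, h3, h4⟩ := C.spec e he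
  omega

theorem le_N {e : Sym2 V} (he : e ∈ G.edgeSet) : C.L * C.w e + 1 ≤ C.N := by
  obtain ⟨u, v, h1, h2, h3, h4⟩ := C.spec e he
  have h5 := C.idx_le v
  rw [h3] at h5
  have h6 : C.L * C.w e ≤ C.L * C.M := Nat.mul_le_mul_left _ h5
  have := C.L_pos
  unfold N
  rw [mul_add]
  omega

theorem ne_of_ne {e f : Sym2 V} (he : e ∈ G.edgeSet) (hf : f ∈ G.edgeSet) (hef : e ≠ f) :
    ¬ (C.P (C.i e) (C.w e) = C.P (C.i f) (C.w f) ∧ C.w e = C.w f) := by
  rintro ⟨h1, h2⟩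
  rw [C.par e he, C.par f hf] at h1
  obtain ⟨u, v, a1, a2, a3, a4⟩ := C.spec e he
  obtain ⟨u', v', b1, b2, b3, b4⟩ := C.spec f hf
  have e1 : u = u' := C.idx_inj (by rw [a2, b2, h1])
  have e2 : v = v' := C.idx_inj (by rw [a3, b3, h2])
  exact hef (by rw [a1, b1, e1, e2])

theorem H_c {e : Sym2 V} (he : e ∈ G.edgeSet) : C.H e (C.L * C.c e) = 0 := by
  unfold H hgt
  rw [C.par e he, if_pos (Or.inl rfl)]

theorem H_w {e : Sym2 V} : C.H e (C.L * C.w e) = 0 := by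
  unfold H hgt
  rw [if_pos (Or.inr rfl)]

theorem Y_nat (e : Sym2 V) {k : ℕ} (hk : k ≤ C.N) : C.Y e k = C.H e k :=
  lin_nat _ C.N_pos hk

theorem Y_slot (e : Sym2 V) {k : ℕ} (hk : k + 1 ≤ C.N) {t : ℝ} (ht0 : 0 ≤ t) (ht1 : t ≤ 1) :
    C.Y e (k + t) = (1 - t) * C.H e k + t * C.H e (k + 1) :=
  lin_eq _ hk ht0 ht1

theorem X_range {e : Sym2 V} (he : e ∈ G.edgeSet) {t : ℝ} (ht : t ∈ Icc (0 : ℝ) 1) :
    ((C.L * C.c e : ℕ) : ℝ) ≤ C.X e t ∧ C.X e t ≤ ((C.L * C.w e : ℕ) : ℝ) := by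
  have h : ((C.L * C.c e : ℕ) : ℝ) < ((C.L * C.w e : ℕ) : ℝ) := by exact_mod_cast C.lt_w he
  unfold X
  constructor
  · nlinarith [ht.1, ht.2]
  · nlinarith [ht.1, ht.2]

theorem X_range' {e : Sym2 V} (he : e ∈ G.edgeSet) {t : ℝ} (ht : t ∈ Ioo (0 : ℝ) 1) :
    ((C.L * C.c e : ℕ) : ℝ) < C.X e t ∧ C.X e t < ((C.L * C.w e : ℕ) : ℝ) := by
  have h : ((C.L * C.c e : ℕ) : ℝ) < ((C.L * C.w e : ℕ) : ℝ) := by exact_mod_cast C.lt_w he
  have h1 := mul_pos ht.1 (sub_pos.2 h)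
  have h2 := mul_pos (sub_pos.2 ht.2) (sub_pos.2 h)
  unfold X
  constructor
  · linarith
  · linarith

/-- the time slot of an interior abscissa -/
theorem slot {e : Sym2 V} (he : e ∈ G.edgeSet) {x : ℝ} (h1 : ((C.L * C.c e : ℕ) : ℝ) < x)
    (h2 : x < ((C.L * C.w e : ℕ) : ℝ)) :
    C.L * C.c e ≤ ⌊x⌋₊ ∧ ⌊x⌋₊ + 1 ≤ C.L * C.w e ∧ 0 ≤ x - ⌊x⌋₊ ∧ x - ⌊x⌋₊ < 1 ∧
      C.Y e x = (1 - (x - ⌊x⌋₊)) * C.H e ⌊x⌋₊ + (x - ⌊x⌋₊) * C.H e (⌊x⌋₊ + 1) ∧
      (x - ⌊x⌋₊ = 0 → C.L * C.c e < ⌊x⌋₊) := by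
  have hx0 : 0 ≤ x := le_trans (Nat.cast_nonneg _) h1.le
  have f1 := Nat.floor_le hx0
  have f2 := Nat.lt_floor_add_one x
  have a1 : C.L * C.c e ≤ ⌊x⌋₊ := Nat.le_floor h1.le
  have a2 : ⌊x⌋₊ < C.L * C.w e := by
    have : ((⌊x⌋₊ : ℕ) : ℝ) < ((C.L * C.w e : ℕ) : ℝ) := lt_of_le_of_lt f1 h2
    exact_mod_cast this
  have a3 := C.le_N he
  refine ⟨a1, a2, by linarith, by linarith, ?_, ?_⟩
  · have := C.Y_slot e (k := ⌊x⌋₊) (by omega) (t := x - ⌊x⌋₊) (by linarith) (by linarith)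
    rwa [add_sub_cancel] at this
  · intro h
    have : x = ⌊x⌋₊ := by linarith
    rw [this] at h1
    exact_mod_cast h1

/-- two distinct edges of the same colour do not meet in the interior -/
theorem same_colour {e f : Sym2 V} (he : e ∈ G.edgeSet) (hf : f ∈ G.edgeSet) (hef : e ≠ f)
    (hi : C.i e = C.i f) {x : ℝ} (h1 : ((C.L * C.c e : ℕ) : ℝ) < x)
    (h2 : x < ((C.L * C.w e : ℕ) : ℝ)) (h1' : ((C.L * C.c f : ℕ) : ℝ) < x)
    (h2' : x < ((C.L * C.w f : ℕ) : ℝ)) : C.Y e x ≠ C.Y f x := by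
  obtain ⟨a1, a2, a3, a4, a5, a6⟩ := C.slot he h1 h2
  obtain ⟨b1, b2, b3, b4, b5, b6⟩ := C.slot hf h1' h2'
  have hne := C.ne_of_ne he hf hef
  rw [a5, b5]
  rcases eq_or_lt_of_le a3 with h | h
  · rw [← h]
    have c1 := a6 h.symm
    have c2 := b6 h.symm
    have := hgt_ne (i := C.i e) (j := C.i f) C.hP (x := ⌊x⌋₊) (by rwa [C.par e he]) (by omega)
      (by rwa [C.par f hf]) (by omega) hne
    unfold H
    intro he
    simp only [sub_zero, one_mul, zero_mul, add_zero] at he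
    exact this he
  · have hw : C.w e ≠ C.w f := by
      intro hw
      refine hne ⟨?_, hw⟩
      rw [hi, hw]
    have := slot_same (i := C.i e) (w := C.w e) (w' := C.w f) C.hP C.two_le (C.w_pos he)
      (C.w_pos hf) (x := ⌊x⌋₊) (by rwa [C.par e he]) a2 (by rw [hi, C.par f hf]; exact b1) b2 hw
      h a4
    unfold H
    rw [← hi]
    exact this

/-- three distinct edges do not share an interior point -/
theorem no_triple {e f g : Sym2 V} (he : e ∈ G.edgeSet) (hf : f ∈ G.edgeSet) (hg : g ∈ G.edgeSet)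
    (hef : e ≠ f) (heg : e ≠ g) (hfg : f ≠ g) {x : ℝ}
    (h1 : ((C.L * C.c e : ℕ) : ℝ) < x) (h2 : x < ((C.L * C.w e : ℕ) : ℝ))
    (h1' : ((C.L * C.c f : ℕ) : ℝ) < x) (h2' : x < ((C.L * C.w f : ℕ) : ℝ))
    (h1'' : ((C.L * C.c g : ℕ) : ℝ) < x) (h2'' : x < ((C.L * C.w g : ℕ) : ℝ)) :
    ¬ (C.Y e x = C.Y f x ∧ C.Y e x = C.Y g x) := by
  have key : ∀ {e f : Sym2 V}, e ∈ G.edgeSet → f ∈ G.edgeSet → e ≠ f →
      ((C.L * C.c e : ℕ) : ℝ) < x → x < ((C.L * C.w e : ℕ) : ℝ) →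
      ((C.L * C.c f : ℕ) : ℝ) < x → x < ((C.L * C.w f : ℕ) : ℝ) →
      (Mov C.L C.P (C.i e) (C.w e) ⌊x⌋₊ ↔ Mov C.L C.P (C.i f) (C.w f) ⌊x⌋₊) →
      C.Y e x ≠ C.Y f x := by
    intro e f he hf hef h1 h2 h1' h2' hiff
    obtain ⟨a1, a2, a3, a4, a5, a6⟩ := C.slot he h1 h2
    obtain ⟨b1, b2, b3, b4, b5, b6⟩ := C.slot hf h1' h2'
    have hne := C.ne_of_ne he hf hef
    rw [a5, b5]
    rcases eq_or_lt_of_le a3 with h | h
    · rw [← h]
      have c1 := a6 h.symm
      have c2 := b6 h.symm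
      have := hgt_ne (i := C.i e) (j := C.i f) C.hP (x := ⌊x⌋₊) (by rwa [C.par e he]) (by omega)
        (by rwa [C.par f hf]) (by omega) hne
      unfold H
      intro he
      simp only [sub_zero, one_mul, zero_mul, add_zero] at he
      exact this he
    · have hi := C.col e he
      have hj := C.col f hf
      by_cases hm : Mov C.L C.P (C.i e) (C.w e) ⌊x⌋₊
      · exact slot_mov C.hP C.two_le (by unfold L; omega) (by unfold L; omega) (C.w_pos he)
          (C.w_pos hf) (by rwa [C.par e he]) a2 (by rwa [C.par f hf]) b2 hne hm (hiff.1 hm) h a4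
      · exact slot_static C.hP C.two_le (by unfold L; omega) (by unfold L; omega)
          (by rwa [C.par e he]) a2 (by rwa [C.par f hf]) b2 hne hm (fun h' => hm (hiff.2 h'))
  rintro ⟨k1, k2⟩
  by_cases m1 : Mov C.L C.P (C.i e) (C.w e) ⌊x⌋₊ <;>
    by_cases m2 : Mov C.L C.P (C.i f) (C.w f) ⌊x⌋₊ <;>
    by_cases m3 : Mov C.L C.P (C.i g) (C.w g) ⌊x⌋₊
  · exact key he hf hef h1 h2 h1' h2' (iff_of_true m1 m2) k1
  · exact key he hf hef h1 h2 h1' h2' (iff_of_true m1 m2) k1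
  · exact key he hg heg h1 h2 h1'' h2'' (iff_of_true m1 m3) k2
  · exact key hf hg hfg h1' h2' h1'' h2'' (iff_of_false m2 m3) (k1.symm.trans k2)
  · exact key hf hg hfg h1' h2' h1'' h2'' (iff_of_true m2 m3) (k1.symm.trans k2)
  · exact key he hg heg h1 h2 h1'' h2'' (iff_of_false m1 m3) k2
  · exact key he hf hef h1 h2 h1' h2' (iff_of_false m1 m2) k1
  · exact key he hf hef h1 h2 h1' h2' (iff_of_false m1 m2) k1

/-- two distinct edges meet in finitely many points -/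
theorem finite_meet {e f : Sym2 V} (he : e ∈ G.edgeSet) (hf : f ∈ G.edgeSet) (hef : e ≠ f) :
    (C.crv e '' Icc 0 1 ∩ C.crv f '' Icc 0 1).Finite := by
  have hne := C.ne_of_ne he hf hef
  let T : ℕ → Set ℝ := fun k => {x | (k : ℝ) ≤ x ∧ x < k + 1 ∧ C.L * C.c e ≤ k ∧
    k + 1 ≤ C.L * C.w e ∧ C.L * C.c f ≤ k ∧ k + 1 ≤ C.L * C.w f ∧ C.Y e x = C.Y f x}
  have hT : ∀ k, (T k).Finite := by
    intro k
    refine Set.Subsingleton.finite ?_
    rintro x ⟨x1, x2, x3, x4, x5, x6, x7⟩ y ⟨y1, y2, -, -, -, -, y7⟩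
    have hN := C.le_N he
    have e1 := C.Y_slot e (k := k) (by omega) (t := x - k) (by linarith) (by linarith)
    have e2 := C.Y_slot f (k := k) (by omega) (t := x - k) (by linarith) (by linarith)
    have e3 := C.Y_slot e (k := k) (by omega) (t := y - k) (by linarith) (by linarith)
    have e4 := C.Y_slot f (k := k) (by omega) (t := y - k) (by linarith) (by linarith)
    rw [add_sub_cancel] at e1 e2 e3 e4
    rw [x7, e2] at e1
    rw [y7, e4] at e3
    by_contra hxy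
    have hxy' : x - y ≠ 0 := sub_ne_zero.2 hxy
    -- the difference of the two affine functions vanishes
    have d1 : (x - y) * ((C.H e (k + 1) - C.H e k) - (C.H f (k + 1) - C.H f k)) = 0 := by
      linear_combination e3 - e1
    have d2 : (C.H e (k + 1) - C.H e k) - (C.H f (k + 1) - C.H f k) = 0 :=
      (mul_eq_zero.1 d1).resolve_left hxy'
    have d3 : C.H e k = C.H f k := by
      linear_combination -e1 - (x - k) * d2
    have d4 : C.H e (k + 1) = C.H f (k + 1) := by linarith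
    rcases slot_ne (i := C.i e) (j := C.i f) C.hP C.two_le (x := k) (by rwa [C.par e he]) x4
      (by rwa [C.par f hf]) x6 hne with h | h
    · exact h d3
    · exact h d4
  have hfin : (((⋃ k ∈ Finset.range C.N, T k) ∪
      ((fun k : ℕ => (k : ℝ)) '' (Finset.range (C.N + 1) : Set ℕ)))).Finite := by
    refine Set.Finite.union ?_ ?_
    · exact Set.Finite.biUnion (Finset.finite_toSet _) (fun k _ => hT k)
    · exact Set.Finite.image _ (Finset.finite_toSet _)
  refine Set.Finite.subset (Set.Finite.image (fun x => (x, C.Y e x)) hfin) ?_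
  rintro p ⟨⟨t, ht, rfl⟩, ⟨s, hs, hst⟩⟩
  unfold crv at hst
  rw [Prod.mk.injEq] at hst
  obtain ⟨hX, hY⟩ := hst
  rw [hX] at hY
  have r1 := C.X_range he ht
  have r2 := C.X_range hf hs
  rw [hX] at r2
  set x := C.X e t with hx
  refine ⟨x, ?_, rfl⟩
  have hx0 : 0 ≤ x := le_trans (Nat.cast_nonneg _) r1.1
  have f1 := Nat.floor_le hx0
  have f2 := Nat.lt_floor_add_one x
  have a1 : C.L * C.c e ≤ ⌊x⌋₊ := Nat.le_floor r1.1
  have a2 : C.L * C.c f ≤ ⌊x⌋₊ := Nat.le_floor r2.1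
  have a3 : ⌊x⌋₊ ≤ C.L * C.w e := by
    have : ((⌊x⌋₊ : ℕ) : ℝ) ≤ ((C.L * C.w e : ℕ) : ℝ) := f1.trans r1.2
    exact_mod_cast this
  have a4 : ⌊x⌋₊ ≤ C.L * C.w f := by
    have : ((⌊x⌋₊ : ℕ) : ℝ) ≤ ((C.L * C.w f : ℕ) : ℝ) := f1.trans r2.2
    exact_mod_cast this
  have hN := C.le_N he
  by_cases hint : x = ⌊x⌋₊
  · right
    refine ⟨⌊x⌋₊, ?_, hint.symm⟩
    rw [Finset.mem_coe, Finset.mem_range]
    omega
  · left
    have hlt : ((⌊x⌋₊ : ℕ) : ℝ) < x := lt_of_le_of_ne f1 (Ne.symm hint)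
    have a5 : ⌊x⌋₊ < C.L * C.w e := by
      have : ((⌊x⌋₊ : ℕ) : ℝ) < ((C.L * C.w e : ℕ) : ℝ) := lt_of_lt_of_le hlt r1.2
      exact_mod_cast this
    have a6 : ⌊x⌋₊ < C.L * C.w f := by
      have : ((⌊x⌋₊ : ℕ) : ℝ) < ((C.L * C.w f : ℕ) : ℝ) := lt_of_lt_of_le hlt r2.2
      exact_mod_cast this
    rw [Set.mem_iUnion₂]
    exact ⟨⌊x⌋₊, Finset.mem_range.2 (by omega), f1, f2, a1, a5, a2, a6, hY.symm⟩

/-- the drawing -/
noncomputable def drawing : TopGraph G where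
  pt := C.pt
  crv := C.crv
  pt_inj := by
    intro a b h
    unfold pt at h
    rw [Prod.mk.injEq] at h
    have h1 : C.L * C.idx a = C.L * C.idx b := by exact_mod_cast h.1
    exact C.idx_inj (Nat.eq_of_mul_eq_mul_left C.L_pos h1)
  cont := by
    intro e _
    refine Continuous.continuousOn ?_
    have hX : Continuous (C.X e) := by unfold X; fun_prop
    exact hX.prodMk ((lin_cont _ _).comp hX)
  inj := by
    intro e he t _ s _ h
    unfold crv at h
    rw [Prod.mk.injEq] at h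
    have hlt : ((C.L * C.c e : ℕ) : ℝ) < ((C.L * C.w e : ℕ) : ℝ) := by exact_mod_cast C.lt_w he
    have h1 := h.1
    unfold X at h1
    have h2 : (t - s) * (((C.L * C.w e : ℕ) : ℝ) - (C.L * C.c e : ℕ)) = 0 := by
      linear_combination h1
    rcases mul_eq_zero.1 h2 with h3 | h3
    · linarith
    · linarith
  ends := by
    intro e he
    obtain ⟨u, v, h1, h2, h3, h4⟩ := C.spec e he
    have hN := C.le_N he
    have hlt := C.lt_w he
    refine ⟨u, v, h1, ?_, ?_⟩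
    · unfold crv pt
      have : C.X e 0 = ((C.L * C.c e : ℕ) : ℝ) := by unfold X; ring
      rw [this, C.Y_nat e (by omega), C.H_c he, h2]
    · unfold crv pt
      have : C.X e 1 = ((C.L * C.w e : ℕ) : ℝ) := by unfold X; ring
      rw [this, C.Y_nat e (by omega), C.H_w, h3]
  avoid := by
    intro e he z hz t ht h
    obtain ⟨u, v, h1, h2, h3, h4⟩ := C.spec e he
    unfold crv pt at h
    rw [Prod.mk.injEq] at h
    obtain ⟨hX, hY⟩ := h
    have hr := C.X_range he ht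
    rw [hX] at hr hY
    have r1 : C.L * C.c e ≤ C.L * C.idx z := by exact_mod_cast hr.1
    have r2 : C.L * C.idx z ≤ C.L * C.w e := by exact_mod_cast hr.2
    have r1' := Nat.le_of_mul_le_mul_left r1 C.L_pos
    have r2' := Nat.le_of_mul_le_mul_left r2 C.L_pos
    have n1 : C.idx z ≠ C.c e := by
      intro h
      have : z = u := C.idx_inj (h.trans h2.symm)
      rw [h1, this] at hz
      exact hz (Sym2.mem_mk_left _ _)
    have n2 : C.idx z ≠ C.w e := by
      intro h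
      have : z = v := C.idx_inj (h.trans h3.symm)
      rw [h1, this] at hz
      exact hz (Sym2.mem_mk_right _ _)
    have hN := C.le_N he
    rw [C.Y_nat e (by omega)] at hY
    exact hgt_vertex C.L_pos (by rw [C.par e he]; omega) (by omega) hY
  finite := fun e he f hf hef => C.finite_meet he hf hef
  triple := by
    intro e he f hf g hg hef heg hfg
    rw [Set.eq_empty_iff_forall_notMem]
    rintro p ⟨⟨⟨t, ht, rfl⟩, ⟨s, hs, hst⟩⟩, ⟨q, hq, hqt⟩⟩
    unfold crv at hst hqt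
    rw [Prod.mk.injEq] at hst hqt
    obtain ⟨hX, hY⟩ := hst
    obtain ⟨hX', hY'⟩ := hqt
    have r1 := C.X_range' he ht
    have r2 := C.X_range' hf hs
    have r3 := C.X_range' hg hq
    rw [hX] at r2 hY
    rw [hX'] at r3 hY'
    exact C.no_triple he hf hg hef heg hfg r1.1 r1.2 r2.1 r2.2 r3.1 r3.2 ⟨hY.symm, hY'.symm⟩

include C in
theorem quasiPlanar : IsQuasiPlanar G (d + 1) := by
  classical
  refine ⟨C.drawing, ?_⟩
  rintro ⟨M, hM, hE, hcr⟩
  have hcard : (Finset.range d).card < M.card := by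
    rw [Finset.card_range, hM]
    omega
  obtain ⟨e, he, f, hf, hef, hi⟩ := Finset.exists_ne_map_eq_of_card_lt_of_maps_to hcard
    (f := C.i) (fun e he => by
      rw [Finset.mem_coe, Finset.mem_range]
      exact C.col e (hE e he))
  obtain ⟨-, p, ⟨t, ht, rfl⟩, ⟨s, hs, hst⟩⟩ := hcr e he f hf hef
  change C.crv f s = C.crv e t at hst
  unfold crv at hst
  rw [Prod.mk.injEq] at hst
  obtain ⟨hX, hY⟩ := hst
  have r1 := C.X_range' (hE e he) ht
  have r2 := C.X_range' (hE f hf) hs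
  rw [hX] at r2 hY
  exact C.same_colour (hE e he) (hE f hf) hef hi r1.1 r1.2 r2.1 r2.2 hY.symm

end Code

end Pool.Agent.W5h12.QP
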