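import Pool.Agent.W5h12.QP.Sample
import Pool.Agent.W5h12.QP.Draw

set_option autoImplicit false

/-!
# `k`-matching-planar graphs are `(112 k + 57)`-quasi-planar
-/

namespace Pool.Agent.W5h12.QP

open Set Pool.Agent.Helper805.CHS

theorem exists_low {V : Type} [Fintype V] {G : SimpleGraph V} (D : TopGraph G) {k : ℕ}
    (hD : D.MatchingPlanar k) (X : Finset V) (hX : X.Nonempty) :
    ∃ v ∈ X, ∃ S : Finset V, (∀ u ∈ X, G.Adj v u → u ∈ S) ∧ S.card ≤ 56 * (2 * k + 1) := by
  classical
  have hC : ∀ e : Sym2 V, ∃ C : Finset V, e ∈ G.edgeSet → C.card ≤ 2 * k ∧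
      ∀ f ∈ G.edgeSet, D.Cross e f → ∃ v ∈ C, v ∈ f := by
    intro e
    by_cases he : e ∈ G.edgeSet
    · obtain ⟨C, hC⟩ := exists_cover D hD e he
      exact ⟨C, fun _ => hC⟩
    · exact ⟨∅, fun h => absurd h he⟩
  choose C hC using hC
  set q : ℕ := 4 * k + 1 with hq
  let T : (V → Fin q) → Finset V := fun χ => X.filter (fun v => χ v = 0)
  let H : (V → Fin q) → SimpleGraph V := fun χ =>
    { Adj := fun u v => G.Adj u v ∧ u ∈ T χ ∧ v ∈ T χ ∧ ∀ c ∈ C s(u, v), c ∈ T χ → c = u ∨ c = v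
      symm := ⟨fun u v h => ⟨h.1.symm, h.2.2.1, h.2.1, fun c hc hcT => by
        rw [Sym2.eq_swap] at hc
        exact (h.2.2.2 c hc hcT).symm⟩⟩
      loopless := ⟨fun u h => G.loopless.irrefl u h.1⟩ }
  have hHadj : ∀ χ u v, (H χ).Adj u v ↔ (G.Adj u v ∧ u ∈ T χ ∧ v ∈ T χ ∧
      ∀ c ∈ C s(u, v), c ∈ T χ → c = u ∨ c = v) := fun χ u v => Iff.rfl
  have hbound : ∀ χ, (Finset.univ.filter (fun p : V × V => (H χ).Adj p.1 p.2)).card ≤
      14 * (T χ).card := by
    intro χ
    refine pairs_le (H χ) (T χ) (fun u v h => h.2.1) ?_ _ (fun p hp => (Finset.mem_filter.1 hp).2)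
    refine no_K5 D (H χ) (fun u v h => h.1) ?_
    intro u v w x huv hwx h1 h2 h3 h4 hcross
    obtain ⟨c, hc, hcf⟩ := (hC s(u, v) huv.1).2 s(w, x) hwx.1 hcross
    rw [Sym2.mem_iff] at hcf
    have hcT : c ∈ T χ := by
      rcases hcf with rfl | rfl
      · exact hwx.2.1
      · exact hwx.2.2.1
    rcases huv.2.2.2 c hc hcT with h | h <;> rcases hcf with h' | h'
    · exact h1 (h.symm.trans h')
    · exact h2 (h.symm.trans h')
    · exact h3 (h.symm.trans h')
    · exact h4 (h.symm.trans h')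
  -- notation for counting
  set n := Fintype.card V with hn
  let Z : Finset V → ℕ := fun B =>
    (Finset.univ.filter (fun χ : V → Fin q => ∀ a ∈ B, χ a = 0)).card
  have hZ : ∀ B : Finset V, Z B * q ^ B.card = q ^ n := fun B => card_zero (4 * k) B
  let A : Finset (V × V) := Finset.univ.filter (fun p : V × V => p.1 ∈ X ∧ p.2 ∈ X ∧ G.Adj p.1 p.2)
  let good : V × V → ℕ := fun p => (Finset.univ.filter (fun χ => (H χ).Adj p.1 p.2)).card
  have hqpos : 0 < q := by omega
  have hgood : ∀ p ∈ A, (2 * k + 1) * q ^ n ≤ q ^ 3 * good p := by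
    rintro ⟨u, v⟩ hp
    rw [Finset.mem_filter] at hp
    obtain ⟨-, hu, hv, hadj⟩ := hp
    simp only at hu hv hadj
    let C' : Finset V := (C s(u, v)).filter (fun c => c ≠ u ∧ c ≠ v)
    have hC' : C'.card ≤ 2 * k := (Finset.card_filter_le _ _).trans (hC s(u, v) hadj).1
    have h1 : Finset.univ.filter (fun χ : V → Fin q => ∀ a ∈ ({u, v} : Finset V), χ a = 0) ⊆
        Finset.univ.filter (fun χ => (H χ).Adj u v) ∪
          C'.biUnion (fun c => Finset.univ.filter
            (fun χ : V → Fin q => ∀ a ∈ ({u, v, c} : Finset V), χ a = 0)) := by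
      intro χ hχ
      rw [Finset.mem_filter] at hχ
      have hχ' := hχ.2
      simp only [Finset.mem_insert, Finset.mem_singleton, forall_eq_or_imp, forall_eq] at hχ'
      rw [Finset.mem_union, Finset.mem_filter]
      by_cases hA : (H χ).Adj u v
      · exact Or.inl ⟨Finset.mem_univ _, hA⟩
      · right
        rw [hHadj] at hA
        push Not at hA
        obtain ⟨c, hc, hcT, hcu, hcv⟩ := hA hadj (Finset.mem_filter.2 ⟨hu, hχ'.1⟩)
          (Finset.mem_filter.2 ⟨hv, hχ'.2⟩)
        rw [Finset.mem_biUnion]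
        refine ⟨c, Finset.mem_filter.2 ⟨hc, hcu, hcv⟩, ?_⟩
        rw [Finset.mem_filter]
        refine ⟨Finset.mem_univ _, ?_⟩
        simp only [Finset.mem_insert, Finset.mem_singleton, forall_eq_or_imp, forall_eq]
        exact ⟨hχ'.1, hχ'.2, (Finset.mem_filter.1 hcT).2⟩
    have h2 : Z {u, v} ≤ good (u, v) + ∑ c ∈ C', Z {u, v, c} := by
      refine (Finset.card_le_card h1).trans ((Finset.card_union_le _ _).trans ?_)
      exact Nat.add_le_add_left Finset.card_biUnion_le _
    have h3 : Z {u, v} * q ^ 2 = q ^ n := by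
      have := hZ {u, v}
      rwa [Finset.card_pair hadj.ne] at this
    have h4 : ∀ c ∈ C', Z {u, v, c} * q ^ 3 = q ^ n := by
      intro c hc
      have hc' := (Finset.mem_filter.1 hc).2
      have := hZ {u, v, c}
      rwa [Finset.card_eq_three.2 ⟨u, v, c, hadj.ne, hc'.1.symm, hc'.2.symm, rfl⟩] at this
    have h5 : (∑ c ∈ C', Z {u, v, c}) * q ^ 3 = C'.card * q ^ n := by
      rw [Finset.sum_mul, Finset.sum_congr rfl h4, Finset.sum_const, smul_eq_mul]
    have h6 : C'.card * q ^ n ≤ 2 * k * q ^ n := Nat.mul_le_mul_right _ hC'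
    have h7 : q * q ^ n ≤ q ^ 3 * good (u, v) + 2 * k * q ^ n := by
      calc q * q ^ n = Z {u, v} * q ^ 3 := by rw [← h3]; ring
        _ ≤ (good (u, v) + ∑ c ∈ C', Z {u, v, c}) * q ^ 3 := Nat.mul_le_mul_right _ h2
        _ = q ^ 3 * good (u, v) + C'.card * q ^ n := by rw [add_mul, h5]; ring
        _ ≤ _ := by omega
    have h8 : q * q ^ n = (2 * k + 1) * q ^ n + 2 * k * q ^ n := by
      rw [hq]; ring
    omega
  have hsumT : q * ∑ χ : V → Fin q, (T χ).card = X.card * q ^ n := by
    have h1 : ∑ χ : V → Fin q, (T χ).card = ∑ v ∈ X, Z {v} := by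
      simp only [T, Z, Finset.card_filter]
      rw [Finset.sum_comm]
      refine Finset.sum_congr rfl ?_
      intro v _
      refine Finset.sum_congr rfl ?_
      intro χ _
      simp
    rw [h1, Finset.mul_sum]
    have h2 : ∀ v ∈ X, q * Z {v} = q ^ n := by
      intro v _
      have := hZ {v}
      rw [Finset.card_singleton, pow_one] at this
      rw [mul_comm]
      exact this
    rw [Finset.sum_congr rfl h2, Finset.sum_const, smul_eq_mul]
  have hsumA : ∑ p ∈ A, good p ≤ ∑ χ : V → Fin q,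
      (Finset.univ.filter (fun p : V × V => (H χ).Adj p.1 p.2)).card := by
    have h1 : ∑ p ∈ A, good p = ∑ χ : V → Fin q, (A.filter (fun p => (H χ).Adj p.1 p.2)).card := by
      simp only [good, Finset.card_filter]
      rw [Finset.sum_comm]
    rw [h1]
    refine Finset.sum_le_sum ?_
    intro χ _
    exact Finset.card_le_card (Finset.filter_subset_filter _ (Finset.subset_univ _))
  have hmain : A.card * (2 * k + 1) ≤ 14 * q ^ 2 * X.card := by
    have hqn : 0 < q ^ n := Nat.pow_pos hqpos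
    refine Nat.le_of_mul_le_mul_right (c := q ^ n) ?_ hqn
    calc A.card * (2 * k + 1) * q ^ n = ∑ _p ∈ A, (2 * k + 1) * q ^ n := by
          rw [Finset.sum_const, smul_eq_mul]; ring
      _ ≤ ∑ p ∈ A, q ^ 3 * good p := Finset.sum_le_sum hgood
      _ = q ^ 3 * ∑ p ∈ A, good p := by rw [Finset.mul_sum]
      _ ≤ q ^ 3 * ∑ χ : V → Fin q, 14 * (T χ).card := by
          refine Nat.mul_le_mul_left _ (hsumA.trans (Finset.sum_le_sum (fun χ _ => hbound χ)))
      _ = 14 * q ^ 2 * (q * ∑ χ : V → Fin q, (T χ).card) := by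
          rw [← Finset.mul_sum]; ring
      _ = 14 * q ^ 2 * X.card * q ^ n := by rw [hsumT]; ring
  have hN : A.card ≤ 56 * (2 * k + 1) * X.card := by
    refine Nat.le_of_mul_le_mul_right (c := 2 * k + 1) (hmain.trans ?_) (by omega)
    have h1 : q ^ 2 ≤ 4 * (2 * k + 1) ^ 2 := by
      rw [hq]
      nlinarith
    calc 14 * q ^ 2 * X.card ≤ 14 * (4 * (2 * k + 1) ^ 2) * X.card :=
          Nat.mul_le_mul_right _ (Nat.mul_le_mul_left _ h1)
      _ = 56 * (2 * k + 1) * X.card * (2 * k + 1) := by ring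
  -- a vertex of small degree
  have hsum : ∑ v ∈ X, (X.filter (fun u => G.Adj v u)).card ≤ ∑ _v ∈ X, 56 * (2 * k + 1) := by
    have h1 : ∑ v ∈ X, (X.filter (fun u => G.Adj v u)).card =
        (X.sigma (fun v => X.filter (fun u => G.Adj v u))).card := by
      rw [Finset.card_sigma]
    rw [h1, Finset.sum_const, smul_eq_mul, mul_comm]
    refine le_trans ?_ hN
    refine Finset.card_le_card_of_injOn (fun x => (x.1, x.2)) ?_ ?_
    · rintro ⟨v, u⟩ hx
      rw [Finset.mem_coe, Finset.mem_sigma, Finset.mem_filter] at hx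
      simp only [A, Finset.coe_filter, Set.mem_ofPred_eq]
      exact ⟨Finset.mem_univ _, hx.1, hx.2.1, hx.2.2⟩
    · rintro ⟨v, u⟩ _ ⟨v', u'⟩ _ he
      simp only [Prod.mk.injEq] at he
      obtain ⟨rfl, rfl⟩ := he
      rfl
  obtain ⟨v, hv, hle⟩ := Finset.exists_le_of_sum_le hX hsum
  refine ⟨v, hv, X.filter (fun u => G.Adj v u), ?_, hle⟩
  intro u hu hadj
  exact Finset.mem_filter.2 ⟨hu, hadj⟩

/-- a degeneracy ordering -/
theorem degen_order {V : Type} [Fintype V] (G : SimpleGraph V) (s : ℕ)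
    (hdeg : ∀ X : Finset V, X.Nonempty → ∃ v ∈ X, ∃ S : Finset V,
      (∀ u ∈ X, G.Adj v u → u ∈ S) ∧ S.card ≤ s) :
    ∃ r : V → ℕ, Function.Injective r ∧
      ∀ v, ∃ S : Finset V, (∀ u, G.Adj v u → r u < r v → u ∈ S) ∧ S.card ≤ s := by
  classical
  have key : ∀ n : ℕ, ∀ X : Finset V, X.card = n → ∃ r : V → ℕ,
      (∀ u ∈ X, r u < n) ∧ (∀ u ∈ X, ∀ v ∈ X, r u = r v → u = v) ∧
      ∀ v ∈ X, ∃ S : Finset V, (∀ u ∈ X, G.Adj v u → r u < r v → u ∈ S) ∧ S.card ≤ s := by
    intro n
    induction n with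
    | zero =>
      intro X hX
      rw [Finset.card_eq_zero] at hX
      subst hX
      exact ⟨fun _ => 0, by simp, by simp, by simp⟩
    | succ n ih =>
      intro X hX
      have hne : X.Nonempty := by rw [← Finset.card_pos]; omega
      obtain ⟨x, hx, S, hS1, hS2⟩ := hdeg X hne
      obtain ⟨r, hr1, hr2, hr3⟩ := ih (X.erase x) (by rw [Finset.card_erase_of_mem hx]; omega)
      have hr : ∀ u, u ≠ x → Function.update r x n u = r u := fun u hu =>
        Function.update_of_ne hu _ _
      have hrx : Function.update r x n x = n := Function.update_self _ _ _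
      refine ⟨Function.update r x n, ?_, ?_, ?_⟩
      · intro u hu
        by_cases hux : u = x
        · subst hux; rw [hrx]; omega
        · rw [hr u hux]
          have := hr1 u (Finset.mem_erase.2 ⟨hux, hu⟩)
          omega
      · intro u hu v hv h
        by_cases hux : u = x
        · by_cases hvx : v = x
          · rw [hux, hvx]
          · exfalso
            rw [hux, hrx, hr v hvx] at h
            have := hr1 v (Finset.mem_erase.2 ⟨hvx, hv⟩)
            omega
        · by_cases hvx : v = x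
          · exfalso
            rw [hvx, hrx, hr u hux] at h
            have := hr1 u (Finset.mem_erase.2 ⟨hux, hu⟩)
            omega
          · rw [hr u hux, hr v hvx] at h
            exact hr2 u (Finset.mem_erase.2 ⟨hux, hu⟩) v (Finset.mem_erase.2 ⟨hvx, hv⟩) h
      · intro v hv
        by_cases hvx : v = x
        · rw [hvx]
          exact ⟨S, fun u hu hadj _ => hS1 u hu hadj, hS2⟩
        · obtain ⟨S', hS1', hS2'⟩ := hr3 v (Finset.mem_erase.2 ⟨hvx, hv⟩)
          refine ⟨S', ?_, hS2'⟩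
          intro u hu hadj hlt
          rw [hr v hvx] at hlt
          by_cases hux : u = x
          · exfalso
            rw [hux, hrx] at hlt
            have := hr1 v (Finset.mem_erase.2 ⟨hvx, hv⟩)
            omega
          · rw [hr u hux] at hlt
            exact hS1' u (Finset.mem_erase.2 ⟨hux, hu⟩) hadj hlt
  obtain ⟨r, hr1, hr2, hr3⟩ := key _ Finset.univ rfl
  refine ⟨r, fun u v h => hr2 u (Finset.mem_univ _) v (Finset.mem_univ _) h, ?_⟩
  intro v
  obtain ⟨S, hS1, hS2⟩ := hr3 v (Finset.mem_univ _)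
  exact ⟨S, fun u hadj hlt => hS1 u (Finset.mem_univ _) hadj hlt, hS2⟩

theorem main {V : Type} [Finite V] (G : SimpleGraph V) (k : ℕ) (h : IsMatchingPlanar G k) :
    IsQuasiPlanar G (112 * k + 57) := by
  have := Fintype.ofFinite V
  obtain ⟨D, hD⟩ := h
  obtain ⟨r, hr, hS⟩ := degen_order G (56 * (2 * k + 1)) (fun X hX => exists_low D hD X hX)
  obtain ⟨C⟩ := exists_code G (56 * (2 * k + 1)) r hr hS
  have := C.quasiPlanar
  rwa [show 56 * (2 * k + 1) + 1 = 112 * k + 57 by ring] at this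

end Pool.Agent.W5h12.QP
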