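import Pool.Agent.W5h12.QP.Defs
import Pool.Agent.Helper805.CHS.Drawn
import Pool.Agent.Helper805.CHS.Density

set_option autoImplicit false

/-!
# `k`-matching-planar graphs have vertices of small degree

Sample the vertices. An edge both of whose ends are sampled, while no other vertex of a small set
covering all edges crossing it is sampled, crosses no disjoint sampled edge of the same kind.
Hence the sampled graph has no `K₅` minor and few edges.
-/

namespace Pool.Agent.W5h12.QP

open Set Pool.Agent.Helper805.CHS

/-- the edges crossing an edge are covered by few vertices -/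
theorem exists_cover {V : Type} [Finite V] {G : SimpleGraph V} (D : TopGraph G) {k : ℕ}
    (hD : D.MatchingPlanar k) (e : Sym2 V) (he : e ∈ G.edgeSet) :
    ∃ C : Finset V, C.card ≤ 2 * k ∧ ∀ f ∈ G.edgeSet, D.Cross e f → ∃ v ∈ C, v ∈ f := by
  classical
  have := Fintype.ofFinite V
  let Good : Finset (Sym2 V) → Prop := fun M => (∀ f ∈ M, f ∈ G.edgeSet ∧ D.Cross e f) ∧
    (∀ f ∈ M, ∀ g ∈ M, f ≠ g → ∀ v, v ∈ f → v ∉ g)
  have hne : (Finset.univ.filter Good).Nonempty := by
    refine ⟨∅, ?_⟩
    rw [Finset.mem_filter]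
    refine ⟨Finset.mem_univ _, ?_, ?_⟩ <;> simp
  obtain ⟨M, hM, hmax⟩ := Finset.exists_max_image (Finset.univ.filter Good) Finset.card hne
  rw [Finset.mem_filter] at hM
  obtain ⟨-, hM1, hM2⟩ := hM
  refine ⟨M.biUnion (fun f => f.toFinset), ?_, ?_⟩
  · calc (M.biUnion (fun f => f.toFinset)).card ≤ ∑ f ∈ M, f.toFinset.card := Finset.card_biUnion_le
      _ ≤ ∑ _f ∈ M, 2 := by
        refine Finset.sum_le_sum ?_
        intro f _
        rw [Sym2.card_toFinset]
        split_ifs <;> omega
      _ = M.card * 2 := by rw [Finset.sum_const, smul_eq_mul]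
      _ ≤ 2 * k := by
        have := hD e he M hM1 hM2
        omega
  · intro f hf hcr
    by_contra hcon
    push Not at hcon
    have hnot : ∀ g ∈ M, ∀ v, v ∈ g → v ∉ f := by
      intro g hg v hv
      exact hcon v (Finset.mem_biUnion.2 ⟨g, hg, Sym2.mem_toFinset.2 hv⟩)
    have hfM : f ∉ M := by
      intro hfM
      induction f using Sym2.ind with
      | _ a b => exact hnot _ hfM a (Sym2.mem_mk_left _ _) (Sym2.mem_mk_left _ _)
    have hgood : insert f M ∈ Finset.univ.filter Good := by
      rw [Finset.mem_filter]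
      refine ⟨Finset.mem_univ _, ?_, ?_⟩
      · intro g hg
        rw [Finset.mem_insert] at hg
        rcases hg with rfl | hg
        · exact ⟨hf, hcr⟩
        · exact hM1 g hg
      · intro g hg h hh hgh v hv
        rw [Finset.mem_insert] at hg hh
        rcases hg with rfl | hg <;> rcases hh with rfl | hh
        · exact absurd rfl hgh
        · exact fun hv' => hnot h hh v hv' hv
        · exact hnot g hg v hv
        · exact hM2 g hg h hh hgh v hv
    have := hmax _ hgood
    rw [Finset.card_insert_of_notMem hfM] at this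
    omega

/-- the curve of an edge, oriented -/
theorem exists_oriented {V : Type} {G : SimpleGraph V} (D : TopGraph G) (u v : V) :
    ∃ g : unitInterval → ℝ × ℝ, G.Adj u v → Continuous g ∧ g 0 = D.pt u ∧ g 1 = D.pt v ∧
      ∀ t, (g t = D.pt u ∨ g t = D.pt v ∨ ∃ s ∈ Ioo (0 : ℝ) 1, g t = D.crv s(u, v) s) ∧
        ∃ s ∈ Icc (0 : ℝ) 1, g t = D.crv s(u, v) s := by
  by_cases hadj : G.Adj u v
  · have he : s(u, v) ∈ G.edgeSet := hadj
    obtain ⟨a, b, hab, h0, h1⟩ := D.ends _ he
    have hc := D.cont _ he
    have hcases : ∀ t : unitInterval, (t : ℝ) = 0 ∨ (t : ℝ) = 1 ∨ (t : ℝ) ∈ Ioo (0 : ℝ) 1 := by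
      intro t
      rcases eq_or_lt_of_le t.2.1 with h | h
      · exact Or.inl h.symm
      · rcases eq_or_lt_of_le t.2.2 with h' | h'
        · exact Or.inr (Or.inl h')
        · exact Or.inr (Or.inr ⟨h, h'⟩)
    rw [Sym2.eq_iff] at hab
    rcases hab with ⟨rfl, rfl⟩ | ⟨rfl, rfl⟩
    · refine ⟨fun t => D.crv s(u, v) t, fun _ => ⟨?_, ?_, ?_, ?_⟩⟩
      · exact hc.comp_continuous continuous_subtype_val (fun t => t.2)
      · simpa using h0
      · simpa using h1
      · intro t
        refine ⟨?_, t, t.2, rfl⟩
        rcases hcases t with h | h | h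
        · left
          simp only [h, h0]
        · right; left
          simp only [h, h1]
        · right; right
          exact ⟨t, h, rfl⟩
    · refine ⟨fun t => D.crv s(u, v) (1 - t), fun _ => ⟨?_, ?_, ?_, ?_⟩⟩
      · refine hc.comp_continuous (by fun_prop) ?_
        intro t
        have := t.2
        exact ⟨by linarith [this.2], by linarith [this.1]⟩
      · simpa using h1
      · simpa using h0
      · intro t
        have := t.2
        refine ⟨?_, 1 - t, ⟨by linarith [this.2], by linarith [this.1]⟩, rfl⟩
        rcases hcases t with h | h | h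
        · left
          simp only [h, sub_zero, h1]
        · right; left
          simp only [h, sub_self, h0]
        · right; right
          exact ⟨1 - t, ⟨by linarith [h.2], by linarith [h.1]⟩, rfl⟩
  · exact ⟨fun _ => 0, fun h => absurd h hadj⟩

/-- a subgraph whose disjoint edges do not cross has no `K₅` minor -/
theorem no_K5 {V : Type} {G : SimpleGraph V} (D : TopGraph G) (H : SimpleGraph V)
    (hHG : ∀ u v, H.Adj u v → G.Adj u v)
    (hcr : ∀ u v w x, H.Adj u v → H.Adj w x → u ≠ w → u ≠ x → v ≠ w → v ≠ x →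
      ¬ D.Cross s(u, v) s(w, x)) : ¬ K5Model H := by
  choose g hg using exists_oriented D
  let φ := Complex.equivRealProdCLM.symm
  have hD : IsDrawing H (fun v => φ (D.pt v)) (fun u v t => φ (g u v t)) := by
    refine ⟨φ.injective.comp D.pt_inj, ?_, ?_, ?_, ?_, ?_⟩
    · intro u v huv
      exact φ.continuous.comp (hg u v (hHG u v huv)).1
    · intro u v huv
      simp only [(hg u v (hHG u v huv)).2.1]
    · intro u v huv
      simp only [(hg u v (hHG u v huv)).2.2.1]
    · intro u v huv z t he
      have he' := φ.injective he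
      obtain ⟨s, hs, hs'⟩ := ((hg u v (hHG u v huv)).2.2.2 t).2
      by_contra hcon
      push Not at hcon
      refine D.avoid s(u, v) (hHG u v huv) z ?_ s hs (hs'.symm.trans he')
      rw [Sym2.mem_iff]
      tauto
    · intro u v w x huv hwx h1 h2 h3 h4 t s he
      have he' := φ.injective he
      rcases ((hg u v (hHG u v huv)).2.2.2 t).1 with h | h | ⟨a, ha, ha'⟩
      · left; simp only [h]
      · right; simp only [h]
      · exfalso
        have hends : ∀ z, (z = w ∨ z = x) → g w x s ≠ D.pt z := by
          intro z hz h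
          refine D.avoid s(u, v) (hHG u v huv) z ?_ a ⟨ha.1.le, ha.2.le⟩
            (ha'.symm.trans (he'.trans h))
          rw [Sym2.mem_iff]
          rintro (rfl | rfl) <;> rcases hz with rfl | rfl <;> tauto
        rcases ((hg w x (hHG w x hwx)).2.2.2 s).1 with h | h | ⟨b, hb, hb'⟩
        · exact hends w (Or.inl rfl) h
        · exact hends x (Or.inr rfl) h
        · refine hcr u v w x huv hwx h1 h2 h3 h4 ⟨?_, ?_⟩
          · intro h
            rw [Sym2.eq_iff] at h
            rcases h with ⟨h, -⟩ | ⟨h, -⟩
            · exact h1 h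
            · exact h2 h
          · exact ⟨g u v t, ⟨a, ha, ha'.symm⟩, ⟨b, hb, hb'.symm.trans he'.symm⟩⟩
  exact no_K5Model hD

/-- the edge bound, in terms of ordered pairs -/
theorem pairs_le {V : Type} [Fintype V] [DecidableEq V] (H : SimpleGraph V) (T : Finset V)
    (hT : ∀ u v, H.Adj u v → u ∈ T) (hK : ¬ K5Model H) (Pr : Finset (V × V))
    (hPr : ∀ p ∈ Pr, H.Adj p.1 p.2) : Pr.card ≤ 14 * T.card := by
  classical
  set P : Finset (Set V) := T.image (fun v : V => ({v} : Set V)) with hP
  have hinj : Function.Injective (fun v : V => ({v} : Set V)) := Set.singleton_injective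
  have hPc : P.card = T.card := by
    rw [hP, Finset.card_image_of_injective _ hinj]
  have hF : Fam H P := by
    constructor
    · intro A hA
      rw [hP, Finset.mem_image] at hA
      obtain ⟨v, -, rfl⟩ := hA
      have : Nonempty ({v} : Set V) := ⟨⟨v, rfl⟩⟩
      refine SimpleGraph.Connected.mk ?_
      rintro ⟨a, ha⟩ ⟨b, hb⟩
      obtain rfl : a = v := ha
      obtain rfl : b = a := hb
      exact SimpleGraph.Reachable.refl _
    · intro A hA B hB hAB
      rw [hP, Finset.mem_image] at hA hB
      obtain ⟨v, -, rfl⟩ := hA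
      obtain ⟨u, -, rfl⟩ := hB
      rw [Set.disjoint_singleton]
      rintro rfl
      exact hAB rfl
  have h1 : ¬ (2 * (2 ^ 3 - 1) * P.card < (prs H P).card) := by
    intro hlt
    obtain ⟨f, h1, h2, h3, -⟩ := mader H 3 P hF hlt
    exact hK ⟨f, h1, h2, h3⟩
  have h2 : Pr.card ≤ (prs H P).card := by
    apply Finset.card_le_card_of_injOn (fun x => (({x.1} : Set V), ({x.2} : Set V)))
    · rintro ⟨a, b⟩ hx
      have hadj := hPr _ hx
      rw [Finset.mem_coe, mem_prs]
      refine ⟨Finset.mem_image_of_mem _ (hT _ _ hadj), Finset.mem_image_of_mem _ (hT _ _ hadj.symm),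
        ?_, a, rfl, b, rfl, hadj⟩
      intro e
      exact hadj.ne (hinj e)
    · rintro ⟨a, b⟩ _ ⟨a', b'⟩ _ he
      simp only [Prod.mk.injEq, Set.singleton_eq_singleton_iff] at he
      obtain ⟨rfl, rfl⟩ := he
      rfl
  rw [hPc] at h1
  omega

/-- the number of colourings vanishing on a set -/
theorem card_zero {V : Type} [Fintype V] [DecidableEq V] (q : ℕ) (A : Finset V) :
    (Finset.univ.filter (fun χ : V → Fin (q + 1) => ∀ a ∈ A, χ a = 0)).card * (q + 1) ^ A.card =
      (q + 1) ^ Fintype.card V := by
  have h1 : Finset.univ.filter (fun χ : V → Fin (q + 1) => ∀ a ∈ A, χ a = 0) =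
      Fintype.piFinset (fun v => if v ∈ A then {0} else Finset.univ) := by
    ext χ
    rw [Finset.mem_filter, Fintype.mem_piFinset]
    constructor
    · rintro ⟨-, h⟩ v
      split_ifs with hv
      · rw [Finset.mem_singleton]; exact h v hv
      · exact Finset.mem_univ _
    · intro h
      refine ⟨Finset.mem_univ _, ?_⟩
      intro a ha
      have := h a
      rwa [if_pos ha, Finset.mem_singleton] at this
  rw [h1, Fintype.card_piFinset]
  have h2 : ∀ v, (if v ∈ A then ({0} : Finset (Fin (q + 1))) else Finset.univ).card =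
      if v ∈ A then 1 else (q + 1) := by
    intro v
    split_ifs <;> simp
  rw [Finset.prod_congr rfl (fun v _ => h2 v), Finset.prod_ite]
  simp only [Finset.prod_const_one, one_mul, Finset.prod_const]
  rw [← pow_add]
  congr 1
  have h3 := Finset.card_filter_add_card_filter_not (s := (Finset.univ : Finset V)) (fun v => v ∈ A)
  have h4 : (Finset.univ.filter (fun v => v ∈ A)).card = A.card := by
    congr 1
    ext v
    simp
  rw [Finset.card_univ] at h3
  omega

end Pool.Agent.W5h12.QP
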